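import Pool.Agent.Lib_helper30.EvenHomeo.OddFinal
import Pool.Agent.Lib_helper30.EvenHomeo.EvenFinal

/-!
# Homeomorphisms of Euclidean spaces of dimension at least three with all full orbits dense

Odd dimensions: the homeomorphism is a limit of conjugates of irrational Hopf rotations of the odd
dimensional sphere; the stage maps move the point at infinity and a freezing step makes the limit
fix it. Even dimensions: the sphere carries a semifree circle action whose orbit space is an odd
dimensional sphere with its Hopf action; the stage maps cover a rotation of the orbit space, turn
the fibres by a function of degree one around the fixed point set when they cross a thin sheet, and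
time is stopped on a disc bounded by the fixed point set, which is collapsed to the point at
infinity. A thinning step, a classical conjugation step off the sheet and a freezing step are
alternated.
-/

/-- For every `n` at least `3` there is a homeomorphism of Euclidean `n`-space all of whose full
orbits are dense. -/
theorem Pool.Agent.Results.MP_a7e2a1_gt.AllDimensions.result :
    ∀ n : ℕ, 3 ≤ n →
      ∃ f : EuclideanSpace ℝ (Fin n) ≃ₜ EuclideanSpace ℝ (Fin n),
        ∀ x : EuclideanSpace ℝ (Fin n), Dense (Set.range fun k : ℤ => (f ^ k) x) := by
  intro n hn
  rcases Nat.even_or_odd n with h | h
  · obtain ⟨m, hm⟩ := h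
    obtain ⟨k, rfl⟩ : ∃ k, n = 2 * k + 4 := ⟨m - 2, by omega⟩
    exact Pool.Agent.EvenHomeo.evenDims k
  · exact Pool.Agent.MinHomeo.oddDims n hn h
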